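import Pool.Agent.Helper61.QG.GoalsV

/-!
# Project QS, packet QS-CVI
-/

set_option autoImplicit false

namespace Pool.Agent.Helper22.QG

open Pool.Agent.Helper61 Pool.Agent.Helper61.QG

section

variable {F F' : Type} [NormedAddCommGroup F] [NormedSpace ℝ F]
  [NormedAddCommGroup F'] [NormedSpace ℝ F']

theorem fd (L : F ≃L[ℝ] F') (f : F → ℝ) (f' : F' → ℝ) (h : ∀ y, f y = f' (L y)) (z a : F) :
    fderiv ℝ f z a = fderiv ℝ f' (L z) (L a) := by
  have h1 : f = f' ∘ L := funext h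
  rw [h1, ContinuousLinearEquiv.comp_right_fderiv]
  rfl

theorem dd_eq (L : F ≃L[ℝ] F') (f : F → ℝ) (f' : F' → ℝ) (h : ∀ y, f y = f' (L y))
    (z a b : F) : QM.dd f z a b = QS.dd f' (L z) (L a) (L b) := by
  unfold QM.dd QS.dd
  exact fd L _ (fun y' => fderiv ℝ f' y' (L b)) (fun y => fd L f f' h y b) z a

theorem gam_eq (L : F ≃L[ℝ] F') (g : F → F → F → ℝ) (g' : F' → F' →L[ℝ] F' →L[ℝ] ℝ)
    (h : ∀ z a b, g z a b = g' (L z) (L a) (L b)) (z a b c : F) :
    QM.Gam g z a b c = QS.Gam g' (L z) (L a) (L b) (L c) := by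
  unfold QM.Gam QS.Gam
  rw [fd L (fun y => g y b c) (fun y' => g' y' (L b) (L c)) (fun y => h y b c),
    fd L (fun y => g y a c) (fun y' => g' y' (L a) (L c)) (fun y => h y a c),
    fd L (fun y => g y a b) (fun y' => g' y' (L a) (L b)) (fun y => h y a b)]

end

theorem goalCVI : G_CVI := by
  intro F F' _ _ _ _ L g g' h z a b K
  have e1 := dd_eq L (fun y => g y b b) (fun y' => g' y' (L b) (L b)) (fun y => h y b b) z a a
  have e2 := dd_eq L (fun y => g y a a) (fun y' => g' y' (L a) (L a)) (fun y => h y a a) z b b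
  have e3 := dd_eq L (fun y => g y a b) (fun y' => g' y' (L a) (L b)) (fun y => h y a b) z a b
  constructor
  · rintro ⟨cab, caa, cbb, h1, h2, h3, h4⟩
    refine ⟨L cab, L caa, L cbb, fun x' => ?_, fun x' => ?_, fun x' => ?_, ?_⟩
    · obtain ⟨x, rfl⟩ := L.surjective x'
      rw [← h, ← gam_eq L g g' h]
      exact h1 x
    · obtain ⟨x, rfl⟩ := L.surjective x'
      rw [← h, ← gam_eq L g g' h]
      exact h2 x
    · obtain ⟨x, rfl⟩ := L.surjective x'
      rw [← h, ← gam_eq L g g' h]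
      exact h3 x
    · rw [h4, e1, e2, e3, h, h]
  · rintro ⟨cab', caa', cbb', h1, h2, h3, h4⟩
    obtain ⟨cab, rfl⟩ := L.surjective cab'
    obtain ⟨caa, rfl⟩ := L.surjective caa'
    obtain ⟨cbb, rfl⟩ := L.surjective cbb'
    refine ⟨cab, caa, cbb, fun x => ?_, fun x => ?_, fun x => ?_, ?_⟩
    · rw [h, gam_eq L g g' h]
      exact h1 (L x)
    · rw [h, gam_eq L g g' h]
      exact h2 (L x)
    · rw [h, gam_eq L g g' h]
      exact h3 (L x)
    · rw [h4, e1, e2, e3, h, h]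

end Pool.Agent.Helper22.QG
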